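import Mathlib

/-!
# Negative moments of the SK partition function: definitions and statements of the pieces

Every `St_XXX` is a closed `Prop`; a piece is `theorem t_XXX : St_XXX` (or with hypotheses
`(h : St_YYY)` for the earlier ones), in its own file `Pool/Agent/<yours>/...`.
-/

set_option autoImplicit false

open MeasureTheory ProbabilityTheory Filter Topology

namespace Pool.TH231.DFM

/-- the standard Gaussian measure on `ℝ^κ` -/
noncomputable def gam (κ : Type) [Fintype κ] : Measure (κ → ℝ) :=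
  Measure.pi fun _ : κ => gaussianReal 0 1

/-- expectation -/
noncomputable def EE {κ : Type} [Fintype κ] (F : (κ → ℝ) → ℝ) : ℝ := ∫ g, F g ∂(gam κ)

/-- inner product -/
def ip {κ : Type} [Fintype κ] (u v : κ → ℝ) : ℝ := ∑ c, u c * v c

/-- log partition function of the system `x ↦ ⟨g, u x⟩ + w x` -/
noncomputable def LZ {S κ : Type} [Fintype S] [Fintype κ] (u : S → κ → ℝ) (w : S → ℝ)
    (g : κ → ℝ) : ℝ := Real.log (∑ x, Real.exp (ip g (u x) + w x))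

/-- Gibbs average -/
noncomputable def GA {S κ : Type} [Fintype S] [Fintype κ] (u : S → κ → ℝ) (w : S → ℝ)
    (g : κ → ℝ) (f : S → ℝ) : ℝ :=
  (∑ x, f x * Real.exp (ip g (u x) + w x)) / ∑ x, Real.exp (ip g (u x) + w x)

/-! ### General tools -/

/-- continuity and integrability of log partition functions -/
def St_INT : Prop :=
  ∀ (S κ : Type) [Fintype S] [Nonempty S] [Fintype κ] (u : S → κ → ℝ) (w : S → ℝ),
    Continuous (LZ u w) ∧ Integrable (LZ u w) (gam κ) ∧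
      (∀ c : ℝ, Integrable (fun g => Real.exp (c * LZ u w g)) (gam κ)) ∧
      (∀ f : S → ℝ, Continuous fun g => GA u w g f) ∧
      (∀ (f : S → ℝ) (C : ℝ), (∀ x, |f x| ≤ C) → ∀ g, |GA u w g f| ≤ C)

/-- image of the standard Gaussian measure under a linear map with `A Aᵀ = 1` -/
def St_LAW : Prop :=
  ∀ (κ κ' : Type) [Fintype κ] [Fintype κ'] [DecidableEq κ'] (A : κ' → κ → ℝ),
    (∀ i j, ip (A i) (A j) = if i = j then 1 else 0) →
      MeasurePreserving (fun (g : κ → ℝ) (i : κ') => ip (A i) g) (gam κ) (gam κ')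

/-- Gaussian integration by parts -/
def St_STEIN : Prop :=
  ∀ (κ : Type) [Fintype κ] [DecidableEq κ] (c : κ) (f f1 : (κ → ℝ) → ℝ) (C : ℝ),
    Continuous f → Continuous f1 → (∀ g, |f g| ≤ C) → (∀ g, |f1 g| ≤ C) →
    (∀ g : κ → ℝ, ∀ t : ℝ, HasDerivAt (fun t => f (Function.update g c t))
      (f1 (Function.update g c t)) t) →
    EE (fun g => g c * f g) = EE f1

/-- comparison -/
def St_CMP : Prop :=
  ∀ (S κ0 κ1 : Type) [Fintype S] [Nonempty S] [Fintype κ0] [Fintype κ1]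
    (u0 : S → κ0 → ℝ) (u1 : S → κ1 → ℝ) (w0 w1 : S → ℝ),
    (∀ x y, 0 ≤ 1 / 2 * ((ip (u1 x) (u1 x) - ip (u1 x) (u1 y)) -
      (ip (u0 x) (u0 x) - ip (u0 x) (u0 y))) + (w1 x - w0 x)) →
    EE (LZ u0 w0) ≤ EE (LZ u1 w1)

/-- independent sum of two systems -/
def St_IND : Prop :=
  ∀ (S T κ κ' : Type) [Fintype S] [Nonempty S] [Fintype T] [Nonempty T] [Fintype κ] [Fintype κ']
    (u : S → κ → ℝ) (v : T → κ' → ℝ),
    EE (LZ (fun p : S × T => Sum.elim (u p.1) (v p.2)) (fun _ => 0)) =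
      EE (LZ u (fun _ => 0)) + EE (LZ v (fun _ => 0))

/-- tangent inequality (convexity in `g`) and Jensen in the weights -/
def St_CONV : Prop :=
  ∀ (S κ : Type) [Fintype S] [Nonempty S] [Fintype κ] (u : S → κ → ℝ) (w v : S → ℝ),
    (∀ g h : κ → ℝ, LZ u w g + ip (fun c => GA u w g (fun x => u x c)) h ≤ LZ u w (g + h)) ∧
    (∀ g : κ → ℝ, LZ u w g + GA u w g v ≤ LZ u (w + v) g)

/-- discrete Pisier inequality for functions with a subgradient `D` -/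
def St_PIS : Prop :=
  ∀ (κ : Type) [Fintype κ] (F : (κ → ℝ) → ℝ) (D : (κ → ℝ) → κ → ℝ),
    Continuous F → Continuous D → (∀ g h, F g + ip (D g) h ≤ F (g + h)) →
    Integrable F (gam κ) → (∀ c : ℝ, Integrable (fun g => Real.exp (c * F g)) (gam κ)) →
    ∀ (b : ℝ) (m : ℕ), 0 < b → 1 ≤ m →
      Integrable (fun g => Real.exp (b * m * (1 - Real.cos (Real.pi / (2 * m))) * |ip (D g) g| +
        (b * m * Real.sin (Real.pi / (2 * m))) ^ 2 / 2 * ip (D g) (D g))) (gam κ) →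
      EE (fun g => Real.exp (-b * F g)) ≤ Real.exp (-b * EE F) *
        EE (fun g => Real.exp (b * m * (1 - Real.cos (Real.pi / (2 * m))) * |ip (D g) g| +
          (b * m * Real.sin (Real.pi / (2 * m))) ^ 2 / 2 * ip (D g) (D g)))

/-! ### The SK model -/

/-- sign of a spin -/
def sg (s : Fin 2) : ℝ := (-1 : ℝ) ^ s.val

/-- the vector of the SK Hamiltonian -/
noncomputable def uu (β : ℝ) (N : ℕ) (σ : Fin N → Fin 2) (p : Fin N × Fin N) : ℝ :=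
  if p.1 < p.2 then β / √(N : ℝ) * (sg (σ p.1) * sg (σ p.2)) else 0

/-- overlap -/
noncomputable def RR (N : ℕ) (σ τ : Fin N → Fin 2) : ℝ := (∑ i, sg (σ i) * sg (τ i)) / N

/-- `log Z_N` -/
noncomputable def LL (β : ℝ) (N : ℕ) (g : Fin N × Fin N → ℝ) : ℝ := LZ (uu β N) (fun _ => 0) g

/-- covariance -/
def St_COV : Prop :=
  ∀ (β : ℝ) (N : ℕ), 1 ≤ N → ∀ σ τ : Fin N → Fin 2,
    ip (uu β N σ) (uu β N τ) = β ^ 2 * (N * RR N σ τ ^ 2 - 1) / 2 ∧ |RR N σ τ| ≤ 1 ∧ RR N σ σ = 1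

/-- Guerra–Toninelli: the limiting free energy exists -/
def St_GT : Prop :=
  ∀ β : ℝ, 0 < β → ∃ f : ℝ, Tendsto (fun N : ℕ => EE (LL β N) / N) atTop (𝓝 f)

/-- two-point function -/
noncomputable def mm (β : ℝ) (N : ℕ) (i j : Fin N) (g : Fin N × Fin N → ℝ) : ℝ :=
  GA (uu β N) (fun _ => 0) g (fun σ => sg (σ i) * sg (σ j))

/-- `r g₀ + √(1 - r²) g_a` -/
noncomputable def mix {J κ : Type} (r : ℝ) (o a : J) (g : J × κ → ℝ) (c : κ) : ℝ :=
  r * g (o, c) + √(1 - r ^ 2) * g (a, c)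

/-- `E ⟨R²⟩` for two systems with common part `r` -/
noncomputable def Psi (β : ℝ) (N : ℕ) (r : ℝ) : ℝ :=
  EE (fun g : Fin 3 × (Fin N × Fin N) → ℝ =>
    (∑ i, ∑ j, mm β N i j (mix r 0 1 g) * mm β N i j (mix r 0 2 g)) / N ^ 2)

/-- uniform averages: gauge symmetry and the exponential moment of the overlap of two independent
systems -/
def St_GAUGE : Prop :=
  ∀ (β : ℝ) (N : ℕ), 1 ≤ N →
    EE (LZ (fun p : (Fin N → Fin 2) × (Fin N → Fin 2) => Sum.elim (uu β N p.1) (uu β N p.2))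
      (fun p => N * RR N p.1 p.2 ^ 2 / 4)) ≤ 2 * EE (LL β N) + 1

/-- chaos at small correlation -/
def St_PSI0 : Prop :=
  ∀ β : ℝ, 0 < β → ∃ r C : ℝ, 0 < r ∧ r < 1 ∧ ∀ N : ℕ, 1 ≤ N → Psi β N r ≤ C / N

/-- `Psi(√r)² ≤ Psi(r)` -/
def St_PSQ : Prop :=
  ∀ (β r : ℝ) (N : ℕ), 1 ≤ N → 0 ≤ r → r ≤ 1 → 0 ≤ Psi β N r ∧ Psi β N (√r) ^ 2 ≤ Psi β N r

/-- disorder chaos -/
def St_PSI : Prop :=
  ∀ β ε : ℝ, 0 < β → 0 < ε → ∃ r : ℝ, 0 < r ∧ r < 1 ∧ 1 - r ^ 2 < ε ∧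
    Tendsto (fun N : ℕ => Psi β N r) atTop (𝓝 0)

/-- vectors of the system of `k` replicas -/
noncomputable def uk (β : ℝ) (N k : ℕ) (x : Fin k → Fin N → Fin 2) (c : Fin N × Fin N) : ℝ :=
  ∑ a, uu β N (x a) c

/-- penalty -/
noncomputable def pen (N k : ℕ) (x : Fin k → Fin N → Fin 2) : ℝ :=
  ∑ a, ∑ b, if a < b then RR N (x a) (x b) ^ 2 else 0

/-- the penalised free energy of `k` replicas -/
noncomputable def FF (β : ℝ) (N k : ℕ) (g : Fin N × Fin N → ℝ) : ℝ :=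
  LZ (uk β N k) (fun x => -(N * pen N k x)) g / k

/-- vectors of the system of `k` replicas with disorders `r g₀ + √(1-r²) g_a` -/
noncomputable def uB (β : ℝ) (N k : ℕ) (r : ℝ) (x : Fin k → Fin N → Fin 2)
    (p : Option (Fin k) × (Fin N × Fin N)) : ℝ :=
  match p.1 with
  | none => r * ∑ a, uu β N (x a) p.2
  | some a => √(1 - r ^ 2) * uu β N (x a) p.2

def St_EF1 : Prop :=
  ∀ (β r : ℝ) (N k : ℕ), 1 ≤ N → 1 ≤ k → 0 ≤ r → r ≤ 1 →
    EE (LZ (uB β N k r) (fun x => -(N * pen N k x))) ≤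
      k * EE (FF β N k) + k ^ 2 * β ^ 2 * N * (1 - r ^ 2) / 4

def St_EF2 : Prop :=
  ∀ (β r : ℝ) (N k : ℕ), 1 ≤ N → 1 ≤ k → 0 ≤ r → r ≤ 1 →
    k * EE (LL β N) - N * (k ^ 2 / 2) * Psi β N r ≤
      EE (LZ (uB β N k r) (fun x => -(N * pen N k x)))

/-- `max |X_g|` -/
noncomputable def MM (β : ℝ) (N : ℕ) (g : Fin N × Fin N → ℝ) : ℝ :=
  ⨆ σ : Fin N → Fin 2, |ip g (uu β N σ)|

/-- gradient of `FF` -/
noncomputable def DF (β : ℝ) (N k : ℕ) (g : Fin N × Fin N → ℝ) (c : Fin N × Fin N) : ℝ :=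
  GA (uk β N k) (fun x => -(N * pen N k x)) g (fun x => uk β N k x c) / k

/-- bound of the gradient -/
def St_GRAD : Prop :=
  ∀ (β : ℝ) (N k : ℕ) (g : Fin N × Fin N → ℝ), 1 ≤ N → 1 ≤ k →
    ip (DF β N k g) (DF β N k g) ≤ β ^ 2 * N / (2 * k) + β ^ 2 * MM β N g / k + β ^ 2 / 2 ∧
    |ip (DF β N k g) g| ≤ MM β N g ∧ FF β N k g ≤ LL β N g

/-- exponential moments of the maximum -/
def St_EXPM : Prop :=
  ∀ (β c : ℝ) (N : ℕ), 1 ≤ N → 0 ≤ c → c ≤ 1 →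
    Continuous (MM β N) ∧ (∀ g, 0 ≤ MM β N g) ∧
    Integrable (fun g => Real.exp (c * MM β N g)) (gam (Fin N × Fin N)) ∧
    EE (fun g => Real.exp (c * MM β N g)) ≤
      Real.exp (c * ((N + 1) * Real.log 2 + β ^ 2 * N / 4))

/-- bound of the negative moments -/
def St_UP : Prop :=
  ∀ (β b : ℝ) (N k m : ℕ), 0 < b → 1 ≤ N → 1 ≤ k → 1 ≤ m →
    b * Real.pi ^ 2 / (8 * m) + b ^ 2 * Real.pi ^ 2 * β ^ 2 / (8 * k) ≤ 1 →
    EE (fun g => Real.exp (-b * LL β N g)) ≤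
      Real.exp (-b * EE (FF β N k) +
        (b * Real.pi ^ 2 / (8 * m) + b ^ 2 * Real.pi ^ 2 * β ^ 2 / (8 * k)) *
          ((N + 1) * Real.log 2 + β ^ 2 * N / 4) +
        b ^ 2 * Real.pi ^ 2 * β ^ 2 / 16 * (N / k) + b ^ 2 * Real.pi ^ 2 * β ^ 2 / 16)

/-- the theorem, in our notation -/
def St_MAIN : Prop :=
  ∀ β : ℝ, 0 < β → ∀ a : ℝ, a < 0 → ∃ L : ℝ,
    Tendsto (fun N : ℕ => EE (LL β N) / N) atTop (𝓝 L) ∧
    Tendsto (fun N : ℕ => Real.log (EE (fun g => Real.exp (a * LL β N g))) / (a * N)) atTop (𝓝 L)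

end Pool.TH231.DFM
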