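import Pool.Agent.TH231.DFM.Stmts

/-! Piece UP of project DFM: bound of the negative moments (helper543). -/

set_option autoImplicit false

open MeasureTheory ProbabilityTheory Filter Topology

namespace Pool.TH231.DFM.Up

open Pool.TH231.DFM

lemma ip_smul_left {κ : Type} [Fintype κ] (a : ℝ) (u v : κ → ℝ) :
    ip (fun c => u c / a) v = ip u v / a := by
  unfold ip
  rw [Finset.sum_div]
  exact Finset.sum_congr rfl fun c _ => by ring

lemma continuous_ip {κ : Type} [Fintype κ] {X : Type} [TopologicalSpace X] {u v : X → κ → ℝ}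
    (hu : Continuous u) (hv : Continuous v) : Continuous fun x => ip (u x) (v x) := by
  unfold ip
  exact continuous_finsetSum _ fun c _ =>
    ((continuous_apply c).comp hu).mul ((continuous_apply c).comp hv)

theorem t_UP (hPIS : St_PIS) (hGRAD : St_GRAD) (hEXPM : St_EXPM) (hCONV : St_CONV)
    (hINT : St_INT) : St_UP := by
  intro β b N k m hb hN hk hm hle
  obtain ⟨hc, hi, he, hGc, hGb⟩ := hINT (Fin k → Fin N → Fin 2) (Fin N × Fin N) (uk β N k)
    (fun x => -(N * pen N k x))
  obtain ⟨hc0, hi0, he0, -, -⟩ := hINT (Fin N → Fin 2) (Fin N × Fin N) (uu β N) (fun _ => 0)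
  have hk0 : (0 : ℝ) < k := by exact_mod_cast hk
  have hm0 : (0 : ℝ) < m := by exact_mod_cast hm
  have hpi := Real.pi_pos
  have hFc : Continuous (FF β N k) := by
    unfold FF
    exact hc.div_const _
  have hDc : Continuous (DF β N k) := by
    refine continuous_pi fun c => ?_
    exact (hGc fun x => uk β N k x c).div_const _
  have hsub : ∀ g h, FF β N k g + ip (DF β N k g) h ≤ FF β N k (g + h) := by
    intro g h
    have h1 := (hCONV (Fin k → Fin N → Fin 2) (Fin N × Fin N) (uk β N k)
      (fun x => -(N * pen N k x)) (fun _ => 0)).1 g h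
    have h2 : ip (DF β N k g) h =
        ip (fun c => GA (uk β N k) (fun x => -(N * pen N k x)) g (fun x => uk β N k x c)) h / k :=
      ip_smul_left _ _ _
    rw [h2]
    unfold FF
    rw [← add_div]
    exact div_le_div_of_nonneg_right h1 hk0.le
  have hFi : Integrable (FF β N k) (gam (Fin N × Fin N)) := hi.div_const _
  have hFe : ∀ c : ℝ, Integrable (fun g => Real.exp (c * FF β N k g)) (gam (Fin N × Fin N)) := by
    intro c
    refine (he (c / k)).congr (Eventually.of_forall fun g => ?_)
    simp only [FF]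
    congr 1
    ring
  -- the constants
  set d : ℝ := Real.pi / (2 * m) with hd
  have hd0 : 0 < d := by positivity
  have hmd : m * d = Real.pi / 2 := by rw [hd]; field_simp
  set c1 : ℝ := b * Real.pi ^ 2 / (8 * m) + b ^ 2 * Real.pi ^ 2 * β ^ 2 / (8 * k) with hc1
  have hc10 : 0 ≤ c1 := by positivity
  set c2 : ℝ := b ^ 2 * Real.pi ^ 2 * β ^ 2 / 16 * (N / k) + b ^ 2 * Real.pi ^ 2 * β ^ 2 / 16
    with hc2
  obtain ⟨hMc, hM0, hMi, hMe⟩ := hEXPM β c1 N hN hc10 hle
  have hcos : b * m * (1 - Real.cos d) ≤ b * Real.pi ^ 2 / (8 * m) := by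
    have h1 : 1 - d ^ 2 / 2 ≤ Real.cos d := Real.one_sub_sq_div_two_le_cos
    have h2 : b * m * (1 - Real.cos d) ≤ b * m * (d ^ 2 / 2) :=
      mul_le_mul_of_nonneg_left (by linarith) (by positivity)
    have h3 : b * m * (d ^ 2 / 2) = b * Real.pi ^ 2 / (8 * m) := by
      rw [hd]; field_simp; ring
    linarith
  have hcos0 : 0 ≤ b * m * (1 - Real.cos d) :=
    mul_nonneg (by positivity) (by linarith [Real.cos_le_one d])
  have hsin : (b * m * Real.sin d) ^ 2 / 2 ≤ b ^ 2 * Real.pi ^ 2 / 8 := by
    have h1 : Real.sin d ≤ d := Real.sin_le hd0.le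
    have h0 : 0 ≤ Real.sin d := by
      refine Real.sin_nonneg_of_nonneg_of_le_pi hd0.le ?_
      rw [hd, div_le_iff₀ (by positivity)]
      have : (1 : ℝ) ≤ m := by exact_mod_cast hm
      nlinarith
    have h2 : b * m * Real.sin d ≤ b * (Real.pi / 2) := by
      calc b * m * Real.sin d ≤ b * m * d := mul_le_mul_of_nonneg_left h1 (by positivity)
        _ = b * (m * d) := by ring
        _ = b * (Real.pi / 2) := by rw [hmd]
    have h3 : 0 ≤ b * m * Real.sin d := by positivity
    have h4 : (b * m * Real.sin d) ^ 2 ≤ (b * (Real.pi / 2)) ^ 2 := pow_le_pow_left₀ h3 h2 2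
    calc (b * m * Real.sin d) ^ 2 / 2 ≤ (b * (Real.pi / 2)) ^ 2 / 2 := by linarith
      _ = b ^ 2 * Real.pi ^ 2 / 8 := by ring
  have hsin0 : 0 ≤ (b * m * Real.sin d) ^ 2 / 2 := by positivity
  have hbound : ∀ g, b * m * (1 - Real.cos d) * |ip (DF β N k g) g| +
      (b * m * Real.sin d) ^ 2 / 2 * ip (DF β N k g) (DF β N k g) ≤ c1 * MM β N g + c2 := by
    intro g
    obtain ⟨h1, h2, -⟩ := hGRAD β N k g hN hk
    have hMg := hM0 g
    have h3 : 0 ≤ ip (DF β N k g) (DF β N k g) := by
      unfold ip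
      exact Finset.sum_nonneg fun c _ => mul_self_nonneg _
    have h4 : b * m * (1 - Real.cos d) * |ip (DF β N k g) g| ≤
        b * Real.pi ^ 2 / (8 * m) * MM β N g :=
      mul_le_mul hcos h2 (abs_nonneg _) (by positivity)
    have h5 : (b * m * Real.sin d) ^ 2 / 2 * ip (DF β N k g) (DF β N k g) ≤
        b ^ 2 * Real.pi ^ 2 / 8 * (β ^ 2 * N / (2 * k) + β ^ 2 * MM β N g / k + β ^ 2 / 2) :=
      mul_le_mul hsin h1 h3 (by positivity)
    refine (add_le_add h4 h5).trans (le_of_eq ?_)
    rw [hc1, hc2]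
    field_simp
    ring
  have hcontE : Continuous fun g => Real.exp (b * m * (1 - Real.cos d) * |ip (DF β N k g) g| +
      (b * m * Real.sin d) ^ 2 / 2 * ip (DF β N k g) (DF β N k g)) := by
    refine Real.continuous_exp.comp ?_
    exact (continuous_const.mul (continuous_ip hDc continuous_id).abs).add
      (continuous_const.mul (continuous_ip hDc hDc))
  have hint : Integrable (fun g => Real.exp (b * m * (1 - Real.cos d) * |ip (DF β N k g) g| +
      (b * m * Real.sin d) ^ 2 / 2 * ip (DF β N k g) (DF β N k g))) (gam (Fin N × Fin N)) := by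
    refine (hMi.mul_const (Real.exp c2)).mono' hcontE.aestronglyMeasurable
      (Eventually.of_forall fun g => ?_)
    rw [Real.norm_eq_abs, abs_of_pos (Real.exp_pos _), ← Real.exp_add]
    exact Real.exp_le_exp.2 (hbound g)
  have hP := hPIS (Fin N × Fin N) (FF β N k) (DF β N k) hFc hDc hsub hFi hFe b m hb hm hint
  have hE : EE (fun g => Real.exp (b * m * (1 - Real.cos d) * |ip (DF β N k g) g| +
      (b * m * Real.sin d) ^ 2 / 2 * ip (DF β N k g) (DF β N k g))) ≤
      Real.exp (c1 * ((N + 1) * Real.log 2 + β ^ 2 * N / 4)) * Real.exp c2 := by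
    calc EE (fun g => Real.exp (b * m * (1 - Real.cos d) * |ip (DF β N k g) g| +
          (b * m * Real.sin d) ^ 2 / 2 * ip (DF β N k g) (DF β N k g)))
        ≤ ∫ g, Real.exp (c1 * MM β N g) * Real.exp c2 ∂(gam (Fin N × Fin N)) := by
          unfold EE
          refine integral_mono hint (hMi.mul_const _) fun g => ?_
          show Real.exp _ ≤ Real.exp _ * Real.exp _
          rw [← Real.exp_add]
          exact Real.exp_le_exp.2 (hbound g)
      _ = EE (fun g => Real.exp (c1 * MM β N g)) * Real.exp c2 := by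
          unfold EE
          rw [integral_mul_const]
      _ ≤ _ := mul_le_mul_of_nonneg_right hMe (Real.exp_pos _).le
  have h1 : EE (fun g => Real.exp (-b * LL β N g)) ≤ EE (fun g => Real.exp (-b * FF β N k g)) := by
    unfold EE
    refine integral_mono (he0 (-b)) (hFe (-b)) fun g => ?_
    refine Real.exp_le_exp.2 ?_
    have := (hGRAD β N k g hN hk).2.2
    nlinarith
  calc EE (fun g => Real.exp (-b * LL β N g)) ≤ EE (fun g => Real.exp (-b * FF β N k g)) := h1
    _ ≤ _ := hP
    _ ≤ Real.exp (-b * EE (FF β N k)) *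
        (Real.exp (c1 * ((N + 1) * Real.log 2 + β ^ 2 * N / 4)) * Real.exp c2) :=
        mul_le_mul_of_nonneg_left hE (Real.exp_pos _).le
    _ = _ := by
        rw [← Real.exp_add, ← Real.exp_add]
        congr 1
        rw [hc2]
        ring

end Pool.TH231.DFM.Up
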